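import Pool.Agent.Work.MP_64ea0f_cs.InterfaceG1

/-!
Block COE of `cs_blocks`: nonzero coordinates of positive roots are at least one.
-/

set_option autoImplicit false

namespace Pool.CS

namespace H66C

variable {D : Rd}

theorem rho_mul (v w : D.W) (x : D.V) : D.ρ (v * w) x = D.ρ v (D.ρ w x) := by
  rw [map_mul]; rfl

theorem rho_one (x : D.V) : D.ρ 1 x = x := by
  rw [map_one]; rfl

theorem Be (v : D.V) (r : D.S) : D.B v (D.e r) = ∑ s, v s * D.k s r := by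
  show bform D.k v (Pi.single r 1) = _
  unfold bform
  refine Finset.sum_congr rfl fun s _ => ?_
  rw [Finset.sum_eq_single r]
  · simp
  · intro b _ hb; simp [Pi.single_eq_of_ne hb]
  · intro h; exact absurd (Finset.mem_univ r) h

theorem ht_refl (v : D.V) (s : D.S) : D.ht (D.ρ (D.σ s) v) = D.ht v - 2 * D.B v (D.e s) := by
  have h : D.ρ (D.σ s) v = v - (2 * D.B v (D.e s)) • D.e s := D.refl s v
  rw [h]
  unfold Rd.ht
  simp only [Pi.sub_apply, Pi.smul_apply, smul_eq_mul, Finset.sum_sub_distrib]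
  congr 1
  rw [← Finset.mul_sum]
  have : ∑ t, D.e s t = 1 := by
    show ∑ t, (Pi.single s 1 : D.S → ℝ) t = 1
    rw [Finset.sum_pi_single']
    simp
  rw [this, mul_one]

theorem refl_ne (v : D.V) {s t : D.S} (h : s ≠ t) : D.ρ (D.σ t) v s = v s := by
  have h1 : D.ρ (D.σ t) v = v - (2 * D.B v (D.e t)) • D.e t := D.refl t v
  rw [h1]
  have h2 : D.e t s = 0 := Pi.single_eq_of_ne h 1
  simp [h2]

end H66C

open H66C in
theorem coe_thm : Stmt_BAS → Stmt_SGN → Stmt_PAR → Stmt_HGT → Stmt_COE := by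
  intro hB hS hP hH D φ hφ s hs
  obtain ⟨bs, bl, bk, bv, binv, brt, be, brho, bneg, -⟩ := hB D
  obtain ⟨s1, s2, s0, -⟩ := hS D
  have hpos : 0 < φ s := lt_of_le_of_ne (hφ.2 s) (Ne.symm hs)
  -- minimal height
  let T : Set D.V := {ψ | ψ ∈ D.Ps ∧ ψ s = φ s ∧ D.ht ψ ≤ D.ht φ}
  have hT : T.Finite := (hH D (D.ht φ)).subset fun ψ h => ⟨h.1, h.2.2⟩
  have hTn : T.Nonempty := ⟨φ, hφ, rfl, le_refl _⟩
  obtain ⟨ψ, hψ, hmin⟩ := hT.exists_minimalFor (fun ψ => D.ht ψ) T hTn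
  have hBt : ∀ t, t ≠ s → D.B ψ (D.e t) ≤ 0 := by
    intro t ht
    by_contra hcon
    push Not at hcon
    have h1 : D.ρ (D.σ t) ψ ∈ D.Rt := brho ψ hψ.1.1 _
    have h2 : D.ρ (D.σ t) ψ s = φ s := by rw [refl_ne ψ (Ne.symm ht), hψ.2.1]
    have h3 : D.ρ (D.σ t) ψ ∈ D.Ps := by
      rcases s1 _ h1 with h | h
      · exact h
      · exfalso
        have := h.2 s
        rw [Pi.neg_apply, h2] at this
        linarith
    have h4 : D.ht (D.ρ (D.σ t) ψ) = D.ht ψ - 2 * D.B ψ (D.e t) := ht_refl ψ t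
    have h5 : D.ρ (D.σ t) ψ ∈ T := ⟨h3, h2, by rw [h4]; linarith [hψ.2.2]⟩
    have h6 := hmin h5
    have h7 : D.ht (D.ρ (D.σ t) ψ) ≤ D.ht ψ := by rw [h4]; linarith
    have h8 := h6 h7
    simp only at h8
    rw [h4] at h8
    linarith
  have h1 : (1 : ℝ) = ∑ t, ψ t * D.B ψ (D.e t) := by rw [← bv, brt ψ hψ.1.1]
  have h2 : ∑ t, ψ t * D.B ψ (D.e t) ≤ ψ s * D.B ψ (D.e s) := by
    rw [← Finset.add_sum_erase _ _ (Finset.mem_univ s)]
    have : ∑ t ∈ Finset.univ.erase s, ψ t * D.B ψ (D.e t) ≤ 0 :=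
      Finset.sum_nonpos fun t ht =>
        mul_nonpos_of_nonneg_of_nonpos (hψ.1.2 t) (hBt t (Finset.ne_of_mem_erase ht))
    linarith
  have h3 : D.B ψ (D.e s) ≤ ψ s := by
    rw [Be, ← Finset.add_sum_erase _ _ (Finset.mem_univ s), D.diag]
    have : ∑ t ∈ Finset.univ.erase s, ψ t * D.k t s ≤ 0 :=
      Finset.sum_nonpos fun t ht =>
        mul_nonpos_of_nonneg_of_nonpos (hψ.1.2 t) (D.off t s (Finset.ne_of_mem_erase ht))
    linarith
  rw [hψ.2.1] at h2 h3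
  have h4 : 1 ≤ φ s * φ s := by
    calc (1 : ℝ) ≤ φ s * D.B ψ (D.e s) := by rw [h1]; exact h2
      _ ≤ φ s * φ s := mul_le_mul_of_nonneg_left h3 hpos.le
  nlinarith

end Pool.CS
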