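import Pool.Agent.Work.MP_64ea0f_cs_helper66.COE

/-!
Block DRS of `cs_blocks`: finitely many directions, infinitely many roots.
-/

set_option autoImplicit false

namespace Pool.CS

namespace H66C

variable {D : Rd}

theorem Bsum (v w : D.V) : D.B v w = ∑ s, w s * D.B v (D.e s) := by
  show bform D.k v w = _
  unfold bform
  rw [Finset.sum_comm]
  refine Finset.sum_congr rfl fun s _ => ?_
  rw [Be, Finset.mul_sum]
  refine Finset.sum_congr rfl fun t _ => ?_
  ring

end H66C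

open H66C in
theorem drs_thm : Stmt_BAS → Stmt_PSD → Stmt_DIM → Stmt_DRS := by
  intro hB hPSD hDIM D u hu
  obtain ⟨bs, bl, bk, bv, binv, brt, be, brho, bneg, -⟩ := hB D
  obtain ⟨hKc, huu, hht, hconn⟩ := hu
  have hne : u ≠ 0 := by
    rintro rfl
    rw [Rd.ht] at hht
    simp at hht
  obtain ⟨p1, -, p3, p4⟩ := hPSD D u hKc huu hconn hne
  obtain ⟨n, hn⟩ := hDIM D
  have hsp : D.sp u = {s | u s ≠ 0} := rfl
  -- part 1
  have part1 : ∃ U : Set D.V, U.Finite ∧ (∀ ψ ∈ U, ψ ∈ D.Rt ∧ D.In (D.sp u) ψ) ∧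
      ∀ φ ∈ D.Rt, D.In (D.sp u) φ → ∃ ψ ∈ U, ∃ t : ℝ, φ = ψ + t • u := by
    classical
    let P : ℕ → Prop := fun m => ∃ A : Finset D.V, (∀ φ ∈ A, φ ∈ D.Rt ∧ D.In (D.sp u) φ) ∧
      (∀ φ ∈ A, ∀ ψ ∈ A, φ ≠ ψ → |D.B φ ψ| < 1) ∧ A.card = m
    have hP0 : P 0 := ⟨∅, by simp, by simp, by simp⟩
    have hPb : ∀ m, P m → m ≤ n := by
      rintro m ⟨A, hA1, hA2, rfl⟩
      exact hn A (fun φ hφ => (hA1 φ hφ).1) hA2
    obtain ⟨A, hA1, hA2, hA3⟩ : P (Nat.findGreatest P n) := Nat.findGreatest_spec (Nat.zero_le n) hP0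
    have hmax : ∀ m, P m → m ≤ A.card := by
      intro m hm
      rw [hA3]
      exact Nat.le_findGreatest (hPb m hm) hm
    refine ⟨(A : Set D.V) ∪ (fun v => -v) '' (A : Set D.V), ?_, ?_, ?_⟩
    · exact A.finite_toSet.union (A.finite_toSet.image _)
    · rintro ψ (hψ | ⟨χ, hχ, rfl⟩)
      · exact hA1 ψ hψ
      · refine ⟨bneg χ (hA1 χ hχ).1, ?_⟩
        intro s hs
        show -χ s = 0
        rw [(hA1 χ hχ).2 s hs, neg_zero]
    · intro φ hφ hφs
      by_cases hmem : φ ∈ A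
      · exact ⟨φ, Or.inl hmem, 0, by simp⟩
      · by_contra hcon
        push Not at hcon
        have hsm : ∀ ψ ∈ A, |D.B φ ψ| < 1 := by
          intro ψ hψ
          obtain ⟨q1, q2, q3⟩ := p4 ψ (hA1 ψ hψ).1 φ hφ (hA1 ψ hψ).2 hφs
          rw [bs φ ψ]
          refine lt_of_le_of_ne q1 ?_
          intro h1
          rcases (abs_eq (by norm_num : (0 : ℝ) ≤ 1)).1 h1 with h2 | h2
          · obtain ⟨t, ht⟩ := q2 h2
            exact hcon ψ (Or.inl hψ) t ht
          · obtain ⟨t, ht⟩ := q3 h2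
            exact hcon (-ψ) (Or.inr ⟨ψ, hψ, rfl⟩) t ht
        have hPi : P (insert φ A).card := by
          refine ⟨insert φ A, ?_, ?_, rfl⟩
          · intro χ hχ
            rcases Finset.mem_insert.1 hχ with rfl | h
            · exact ⟨hφ, hφs⟩
            · exact hA1 χ h
          · intro χ hχ χ' hχ' hne'
            rcases Finset.mem_insert.1 hχ with h | h
            · rcases Finset.mem_insert.1 hχ' with h' | h'
              · exact absurd (h.trans h'.symm) hne'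
              · rw [h]; exact hsm χ' h'
            · rcases Finset.mem_insert.1 hχ' with h' | h'
              · rw [h', bs]; exact hsm χ h
              · exact hA2 χ h χ' h' hne'
        have := hmax _ hPi
        rw [Finset.card_insert_of_notMem hmem] at this
        omega
  have part2 : ¬ {φ | φ ∈ D.Rt ∧ D.In (D.sp u) φ}.Finite := by
    intro hfin
    obtain ⟨s0, hs0⟩ : ∃ s, u s ≠ 0 := by
      by_contra h
      push Not at h
      exact hne (funext h)
    have hn0 : {φ | φ ∈ D.Rt ∧ D.In (D.sp u) φ}.Nonempty := by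
      refine ⟨D.e s0, be s0, ?_⟩
      intro s hs
      have : s ≠ s0 := by rintro rfl; exact hs hs0
      exact Pi.single_eq_of_ne this 1
    obtain ⟨φ, hφ, hmax⟩ := hfin.exists_maximalFor (fun ψ => D.ht ψ) _ hn0
    have hge : ∀ s, u s ≠ 0 → 0 ≤ D.B φ (D.e s) := by
      intro s hs
      by_contra hcon
      push Not at hcon
      have h4 : D.ht (D.ρ (D.σ s) φ) = D.ht φ - 2 * D.B φ (D.e s) := ht_refl φ s
      have h5 : D.ρ (D.σ s) φ ∈ {φ | φ ∈ D.Rt ∧ D.In (D.sp u) φ} := by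
        refine ⟨brho φ hφ.1 _, ?_⟩
        intro t ht
        have h6 : t ≠ s := by rintro rfl; exact ht hs
        rw [refl_ne φ h6]
        exact hφ.2 t ht
      have h7 := hmax h5 (show D.ht φ ≤ D.ht (D.ρ (D.σ s) φ) by rw [h4]; linarith)
      simp only at h7
      rw [h4] at h7
      linarith
    have h0 : D.B φ u = 0 := by
      rw [bs, Bsum]
      refine Finset.sum_eq_zero fun s _ => ?_
      by_cases hs : u s = 0
      · rw [hφ.2 s (fun h => h hs), zero_mul]
      · rw [p1 s hs, mul_zero]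
    rw [Bsum] at h0
    have h1 : ∀ s, u s * D.B φ (D.e s) = 0 := by
      have h2 : ∀ s ∈ Finset.univ, 0 ≤ u s * D.B φ (D.e s) := by
        intro s _
        by_cases hs : u s = 0
        · rw [hs, zero_mul]
        · exact mul_nonneg (hKc.1 s) (hge s hs)
      intro s
      exact (Finset.sum_eq_zero_iff_of_nonneg h2).1 h0 s (Finset.mem_univ s)
    have h2 : D.B φ φ = 0 := by
      rw [bv]
      refine Finset.sum_eq_zero fun s _ => ?_
      by_cases hs : u s = 0
      · rw [hφ.2 s (fun h => h hs), zero_mul]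
      · rcases mul_eq_zero.1 (h1 s) with h | h
        · exact absurd h hs
        · rw [h, mul_zero]
    rw [brt φ hφ.1] at h2
    exact one_ne_zero h2
  refine ⟨part1, part2, ?_⟩
  obtain ⟨U, hUf, hU1, hU2⟩ := part1
  by_contra hcon
  push Not at hcon
  apply part2
  -- each line contains at most one root
  have hsub : {φ | φ ∈ D.Rt ∧ D.In (D.sp u) φ} ⊆
      ⋃ ψ ∈ U, {φ | (φ ∈ D.Rt ∧ D.In (D.sp u) φ) ∧ ∃ t : ℝ, φ = ψ + t • u} := by
    intro φ hφ
    obtain ⟨ψ, hψ, t, ht⟩ := hU2 φ hφ.1 hφ.2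
    exact Set.mem_biUnion hψ ⟨hφ, t, ht⟩
  refine (hUf.biUnion fun ψ _ => ?_).subset hsub
  refine Set.Subsingleton.finite ?_
  rintro φ ⟨hφ, t, ht⟩ φ' ⟨hφ', t', ht'⟩
  by_contra hne'
  have h1 : φ' = φ + (t' - t) • u := by
    rw [ht, ht', sub_smul]
    abel
  have h2 : t' - t ≠ 0 := by
    intro h
    rw [h, zero_smul, add_zero] at h1
    exact hne' h1.symm
  exact hcon φ hφ.1 hφ.2 (t' - t) h2 (h1 ▸ hφ'.1)

end Pool.CS
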