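import Pool.Agent.Work.MP_64ea0f_cs.InterfaceA

/-!
Blocks PIN and PCL of `cs_blocks`: intersections of parabolic subgroups, parabolic closures.
-/

set_option autoImplicit false

namespace Pool.CS

namespace H66

open Rd

variable (D : Rd)

theorem rho_mul (v w : D.W) (x : D.V) : D.ρ (v * w) x = D.ρ v (D.ρ w x) := by
  rw [map_mul]; rfl

theorem rho_one (x : D.V) : D.ρ 1 x = x := by
  rw [map_one]; rfl

theorem rho_inv_rho (w : D.W) (x : D.V) : D.ρ w⁻¹ (D.ρ w x) = x := by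
  rw [← rho_mul, inv_mul_cancel, rho_one]

theorem rho_rho_inv (w : D.W) (x : D.V) : D.ρ w (D.ρ w⁻¹ x) = x := by
  rw [← rho_mul, mul_inv_cancel, rho_one]

theorem rho_sigma_e (s : D.S) : D.ρ (D.σ s) (D.e s) = -D.e s := by
  unfold Rd.e
  rw [D.refl]
  have h1 : bform D.k (Pi.single s 1) (Pi.single s 1) = 1 := by
    unfold bform
    rw [Finset.sum_eq_single s, Finset.sum_eq_single s]
    · simp [D.diag]
    · intro t _ hts
      rw [Pi.single_eq_of_ne hts]
      ring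
    · intro h; exact absurd (Finset.mem_univ _) h
    · intro t _ hts
      apply Finset.sum_eq_zero
      intro u _
      rw [Pi.single_eq_of_ne hts]
      ring
    · intro h; exact absurd (Finset.mem_univ _) h
  rw [h1, mul_one, two_smul]
  abel

theorem rho_root {φ : D.V} (h : φ ∈ D.Rt) (w : D.W) : D.ρ w φ ∈ D.Rt := by
  obtain ⟨v, s, rfl⟩ := h
  exact ⟨w * v, s, (rho_mul D w v _).symm⟩

theorem neg_root {φ : D.V} (h : φ ∈ D.Rt) : -φ ∈ D.Rt := by
  obtain ⟨v, s, rfl⟩ := h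
  refine ⟨v * D.σ s, s, ?_⟩
  rw [rho_mul, rho_sigma_e, map_neg]

theorem e_root (s : D.S) : D.e s ∈ D.Rt := ⟨1, s, (rho_one D _).symm⟩

theorem pos_or {φ : D.V} (h : φ ∈ D.Rt) : φ ∈ D.Ps ∨ -φ ∈ D.Ps := by
  obtain ⟨v, s, hv⟩ := h
  rcases D.sign v s with h1 | h1
  · left
    refine ⟨⟨v, s, hv⟩, fun t => ?_⟩
    rw [hv]
    exact h1 t
  · right
    refine ⟨neg_root D ⟨v, s, hv⟩, fun t => ?_⟩
    rw [hv, Pi.neg_apply]
    have := h1 t
    unfold Rd.e
    linarith

theorem root_ne_zero {φ : D.V} (h : φ ∈ D.Rt) : φ ≠ 0 := by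
  rintro rfl
  obtain ⟨v, s, hv⟩ := h
  have h1 : D.ρ v⁻¹ (D.ρ v (D.e s)) = 0 := by rw [← hv, map_zero]
  rw [rho_inv_rho] at h1
  have h2 := congrFun h1 s
  unfold Rd.e at h2
  rw [Pi.single_eq_same] at h2
  exact one_ne_zero h2

theorem e_pos (s : D.S) : D.e s ∈ D.Ps := by
  refine ⟨e_root D s, fun t => ?_⟩
  unfold Rd.e
  rcases eq_or_ne t s with rfl | h
  · rw [Pi.single_eq_same]; exact zero_le_one
  · rw [Pi.single_eq_of_ne h]

/-- the height as a functional -/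
noncomputable def htL : D.V →ₗ[ℝ] ℝ := ∑ s, LinearMap.proj s

theorem htL_apply (v : D.V) : htL D v = ∑ s, v s := by
  unfold htL
  rw [LinearMap.sum_apply]
  rfl

theorem htL_pos {φ : D.V} (h : φ ∈ D.Ps) : 0 < htL D φ := by
  rw [htL_apply]
  have h1 := root_ne_zero D h.1
  have h2 : ∃ s, φ s ≠ 0 := by
    by_contra hcon
    push Not at hcon
    exact h1 (funext hcon)
  obtain ⟨s, hs⟩ := h2
  exact Finset.sum_pos' (fun t _ => h.2 t) ⟨s, Finset.mem_univ s, lt_of_le_of_ne (h.2 s) hs.symm⟩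

theorem neg_notMem {φ : D.V} (h : φ ∈ D.Ps) : -φ ∉ D.Ps := by
  intro h'
  have h1 := htL_pos D h
  have h2 := htL_pos D h'
  rw [map_neg] at h2
  linarith

/-- a dominant functional is nonnegative at positive roots -/
theorem dom_nonneg {y : D.V →ₗ[ℝ] ℝ} (hy : ∀ s, 0 ≤ y (D.e s)) {v : D.V} (hv : ∀ s, 0 ≤ v s) :
    0 ≤ y v := by
  have h1 : v = ∑ s, v s • D.e s := by
    funext t
    rw [Finset.sum_apply, Finset.sum_eq_single t]
    · rw [Pi.smul_apply]
      unfold Rd.e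
      rw [Pi.single_eq_same, smul_eq_mul, mul_one]
    · intro s _ hst
      rw [Pi.smul_apply]
      unfold Rd.e
      rw [Pi.single_eq_of_ne hst.symm, smul_zero]
    · intro h; exact absurd (Finset.mem_univ _) h
  rw [h1, map_sum]
  apply Finset.sum_nonneg
  intro s _
  rw [map_smul, smul_eq_mul]
  exact mul_nonneg (hv s) (hy s)

theorem mem_cp {g w : D.W} {J : Set D.S} : w ∈ D.cp g J ↔ g⁻¹ * w * g ∈ D.par J := by
  unfold Rd.cp
  rw [Subgroup.mem_map]
  constructor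
  · rintro ⟨p, hp, rfl⟩
    have h1 : g⁻¹ * ((MulAut.conj g).toMonoidHom p) * g = p := by
      simp only [MulEquiv.toMonoidHom_eq_coe, MonoidHom.coe_coe, MulAut.conj_apply]
      group
    rw [h1]
    exact hp
  · intro h
    refine ⟨_, h, ?_⟩
    simp only [MulEquiv.toMonoidHom_eq_coe, MonoidHom.coe_coe, MulAut.conj_apply]
    group

variable {D}

/-- the stabiliser of a functional of the Tits cone is parabolic -/
theorem stab (hT : Stmt_TIT) {y : D.V →ₗ[ℝ] ℝ} (hy : y ∈ D.Tc) :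
    ∃ g : D.W, (∀ s, 0 ≤ y (D.ρ g (D.e s))) ∧
      ∀ w, w ∈ D.cp g {s | y (D.ρ g (D.e s)) = 0} ↔ y ∘ₗ D.ρ w = y := by
  obtain ⟨-, -, -, -, h5, h6, h7⟩ := hT D
  obtain ⟨g, hg⟩ := h5 y hy
  refine ⟨g, hg, fun w => ?_⟩
  rw [mem_cp]
  have hz : ∀ s, 0 ≤ (y ∘ₗ D.ρ g) (D.e s) := hg
  constructor
  · intro h
    have h1 := h7 (y ∘ₗ D.ρ g) _ h
    refine LinearMap.ext fun v => ?_
    have h2 := LinearMap.congr_fun h1 (D.ρ g⁻¹ v)
    rw [LinearMap.comp_apply, LinearMap.comp_apply, LinearMap.comp_apply, ← rho_mul, ← rho_mul,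
      ← rho_mul] at h2
    rw [LinearMap.comp_apply]
    have e1 : g * (g⁻¹ * w * g) * g⁻¹ = w := by group
    have e2 : g * g⁻¹ = 1 := by group
    rw [e1, e2, rho_one] at h2
    exact h2
  · intro h
    have h1 : (y ∘ₗ D.ρ g) ∘ₗ D.ρ (g⁻¹ * w * g) = y ∘ₗ D.ρ g := by
      refine LinearMap.ext fun v => ?_
      rw [LinearMap.comp_apply, LinearMap.comp_apply, LinearMap.comp_apply, ← rho_mul]
      have e1 : g * (g⁻¹ * w * g) = w * g := by group
      rw [e1, rho_mul]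
      exact LinearMap.congr_fun h (D.ρ g v)
    refine (h6 (y ∘ₗ D.ρ g) hz (g⁻¹ * w * g) (fun s => ?_)).2
    have h2 := LinearMap.congr_fun h1 (D.e s)
    rw [LinearMap.comp_apply] at h2
    rw [h2]
    exact hz s

/-- a parabolic subgroup is a stabiliser -/
theorem cp_stab (hT : Stmt_TIT) (g : D.W) (J : Set D.S) : ∃ y ∈ D.Tc,
    ∀ w, w ∈ D.cp g J ↔ y ∘ₗ D.ρ w = y := by
  classical
  obtain ⟨-, -, h3, h4, h5, h6, h7⟩ := hT D
  set z : D.V →ₗ[ℝ] ℝ := ∑ s ∈ Finset.univ.filter (fun s => s ∉ J), LinearMap.proj s with hz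
  have hze : ∀ s, z (D.e s) = if s ∈ J then 0 else 1 := by
    intro s
    rw [hz, LinearMap.sum_apply]
    simp only [LinearMap.proj_apply]
    unfold Rd.e
    split_ifs with h
    · apply Finset.sum_eq_zero
      intro t ht
      rw [Finset.mem_filter] at ht
      exact Pi.single_eq_of_ne (fun h' : t = s => ht.2 (by rw [h']; exact h)) _
    · rw [Finset.sum_eq_single s]
      · exact Pi.single_eq_same _ _
      · intro t _ hts
        exact Pi.single_eq_of_ne hts _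
      · intro h'
        exfalso
        apply h'
        rw [Finset.mem_filter]
        exact ⟨Finset.mem_univ _, h⟩
  have hz0 : ∀ s, 0 ≤ z (D.e s) := by
    intro s
    rw [hze]
    split_ifs <;> norm_num
  have hJ : {s | z (D.e s) = 0} = J := by
    ext s
    rw [Set.mem_ofPred_eq, hze]
    split_ifs with h
    · simp [h]
    · simp [h]
  refine ⟨z ∘ₗ D.ρ g⁻¹, h3 z (h4 z hz0) g⁻¹, fun w => ?_⟩
  rw [mem_cp]
  constructor
  · intro h
    rw [← hJ] at h
    have h1 := h7 z _ h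
    refine LinearMap.ext fun v => ?_
    have h2 := LinearMap.congr_fun h1 (D.ρ g⁻¹ v)
    rw [LinearMap.comp_apply, ← rho_mul] at h2
    rw [LinearMap.comp_apply, LinearMap.comp_apply, ← rho_mul]
    have e1 : g⁻¹ * w * g * g⁻¹ = g⁻¹ * w := by group
    rw [e1] at h2
    exact h2
  · intro h
    have h1 : z ∘ₗ D.ρ (g⁻¹ * w * g) = z := by
      refine LinearMap.ext fun v => ?_
      have h2 := LinearMap.congr_fun h (D.ρ g v)
      rw [LinearMap.comp_apply, LinearMap.comp_apply, LinearMap.comp_apply, ← rho_mul,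
        ← rho_mul, ← rho_mul] at h2
      rw [LinearMap.comp_apply]
      have e2 : g⁻¹ * g = 1 := by group
      rw [e2, rho_one] at h2
      exact h2
    have h3 := (h6 z hz0 (g⁻¹ * w * g) (fun s => by
      have h2 := LinearMap.congr_fun h1 (D.e s)
      rw [LinearMap.comp_apply] at h2
      rw [h2]
      exact hz0 s)).2
    rwa [hJ] at h3

theorem fix_refl {y : D.V →ₗ[ℝ] ℝ} {g : D.W} {s : D.S} (h : y (D.ρ g (D.e s)) = 0) :
    y ∘ₗ D.ρ (g * D.σ s * g⁻¹) = y := by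
  refine LinearMap.ext fun v => ?_
  rw [LinearMap.comp_apply, mul_assoc, rho_mul, rho_mul, D.refl]
  rw [map_sub, map_smul, rho_rho_inv, map_sub, map_smul]
  have : y ((D.ρ g) (Pi.single s 1)) = 0 := h
  rw [this, smul_zero, sub_zero]

end H66

open H66 in
/-- **PIN** -/
theorem pin_thm : Stmt_TIT → Stmt_PAR → Stmt_PIN := by
  intro hT _ D g g' J J'
  obtain ⟨y, hy, hyw⟩ := cp_stab hT g J
  obtain ⟨y', hy', hyw'⟩ := cp_stab hT g' J'
  -- the finitely many bad positive roots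
  set F : Set D.V := {φ | φ ∈ D.Ps ∧ y φ < 0} ∪ {φ | φ ∈ D.Ps ∧ y' φ < 0} with hF
  have hFf : F.Finite := Set.Finite.union hy hy'
  obtain ⟨ε, hε, hεF⟩ : ∃ ε : ℝ, 0 < ε ∧ ε ∉ (fun φ : D.V => -y φ / y' φ) '' F := by
    have h1 : (Set.Ioi (0 : ℝ)).Infinite := Set.Ioi_infinite 0
    obtain ⟨ε, hε, h2⟩ := h1.exists_notMem_finite (hFf.image _)
    exact ⟨ε, hε, h2⟩
  have hz : y + ε • y' ∈ D.Tc := (hT D).1 y hy _ ((hT D).2.1 y' hy' ε hε.le)
  -- roots vanishing on `z`
  have hpos : ∀ φ ∈ D.Ps, (y + ε • y') φ = 0 → y φ = 0 ∧ y' φ = 0 := by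
    intro φ hφ h0
    rw [LinearMap.add_apply, LinearMap.smul_apply, smul_eq_mul] at h0
    by_cases hφF : φ ∈ F
    · have h1 : y' φ = 0 := by
        by_contra h1
        apply hεF
        refine ⟨φ, hφF, ?_⟩
        simp only
        rw [div_eq_iff h1]
        linarith
      rw [h1, mul_zero, add_zero] at h0
      exact ⟨h0, h1⟩
    · have h1 : 0 ≤ y φ := by
        by_contra h1
        exact hφF (Or.inl ⟨hφ, not_le.1 h1⟩)
      have h2 : 0 ≤ y' φ := by
        by_contra h2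
        exact hφF (Or.inr ⟨hφ, not_le.1 h2⟩)
      have h3 : 0 ≤ ε * y' φ := mul_nonneg hε.le h2
      have h4 : ε * y' φ = 0 := by linarith
      refine ⟨by linarith, ?_⟩
      rcases mul_eq_zero.1 h4 with h5 | h5
      · exact absurd h5 hε.ne'
      · exact h5
  have hroot : ∀ φ ∈ D.Rt, (y + ε • y') φ = 0 → y φ = 0 ∧ y' φ = 0 := by
    intro φ hφ h0
    rcases pos_or D hφ with h | h
    · exact hpos φ h h0
    · obtain ⟨h1, h2⟩ := hpos (-φ) h (by rw [map_neg, h0, neg_zero])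
      rw [map_neg, neg_eq_zero] at h1 h2
      exact ⟨h1, h2⟩
  obtain ⟨w₀, -, hw₀⟩ := stab hT hz
  refine ⟨w₀, {s | (y + ε • y') (D.ρ w₀ (D.e s)) = 0}, ?_⟩
  apply le_antisymm
  · intro w hw
    rw [Subgroup.mem_inf, hyw, hyw'] at hw
    rw [hw₀]
    refine LinearMap.ext fun v => ?_
    have h1 := LinearMap.congr_fun hw.1 v
    have h2 := LinearMap.congr_fun hw.2 v
    rw [LinearMap.comp_apply] at h1 h2
    rw [LinearMap.comp_apply, LinearMap.add_apply, LinearMap.add_apply, LinearMap.smul_apply,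
      LinearMap.smul_apply, h1, h2]
  · have key : ∀ u : D.V →ₗ[ℝ] ℝ, (∀ s, (y + ε • y') (D.ρ w₀ (D.e s)) = 0 →
        u (D.ρ w₀ (D.e s)) = 0) → ∀ p ∈ D.par {s | (y + ε • y') (D.ρ w₀ (D.e s)) = 0},
        u ∘ₗ D.ρ (w₀ * p * w₀⁻¹) = u := by
      intro u hu p hp
      unfold Rd.par at hp
      induction hp using Subgroup.closure_induction with
      | mem x hx =>
        obtain ⟨s, hs, rfl⟩ := hx
        exact fix_refl (hu s hs)
      | one =>
        rw [mul_one, mul_inv_cancel]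
        refine LinearMap.ext fun v => ?_
        rw [LinearMap.comp_apply, rho_one]
      | mul a b _ _ ha hb =>
        have e : w₀ * (a * b) * w₀⁻¹ = (w₀ * a * w₀⁻¹) * (w₀ * b * w₀⁻¹) := by group
        refine LinearMap.ext fun v => ?_
        rw [e, LinearMap.comp_apply, rho_mul]
        have h1 := LinearMap.congr_fun ha (D.ρ (w₀ * b * w₀⁻¹) v)
        have h2 := LinearMap.congr_fun hb v
        rw [LinearMap.comp_apply] at h1 h2
        rw [h1, h2]
      | inv a _ ha =>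
        have e : w₀ * a⁻¹ * w₀⁻¹ = (w₀ * a * w₀⁻¹)⁻¹ := by group
        refine LinearMap.ext fun v => ?_
        rw [e, LinearMap.comp_apply]
        have h1 := LinearMap.congr_fun ha (D.ρ (w₀ * a * w₀⁻¹)⁻¹ v)
        rw [LinearMap.comp_apply, rho_rho_inv] at h1
        exact h1.symm
    intro w hw
    rw [mem_cp] at hw
    have e : w = w₀ * (w₀⁻¹ * w * w₀) * w₀⁻¹ := by group
    rw [Subgroup.mem_inf, hyw, hyw', e]
    exact ⟨key y (fun s hs => (hroot _ (rho_root D (e_root D s) w₀) hs).1) _ hw,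
      key y' (fun s hs => (hroot _ (rho_root D (e_root D s) w₀) hs).2) _ hw⟩

end Pool.CS
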