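import Pool.Agent.Work.MP_64ea0f_cs_helper66.PIN

/-!
Block PCL of `cs_blocks`: parabolic closures; finite subgroups are contained in finite parabolic
subgroups.
-/

set_option autoImplicit false

namespace Pool.CS

namespace H66

open Rd

variable {D : Rd}

theorem par_univ : D.par Set.univ = ⊤ := by
  unfold Rd.par
  rw [Set.image_univ]
  exact D.gen

theorem cp_one (J : Set D.S) : D.cp 1 J = D.par J := by
  ext w
  rw [mem_cp]
  simp

theorem N_inj {p q : D.W} (h : D.N p = D.N q) : p = q := by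
  have h1 : q * p⁻¹ = 1 := by
    apply D.triv
    intro s t
    have h2 : D.ρ (q * p⁻¹) (D.e s) ∈ D.Ps := by
      rw [rho_mul]
      have hr := rho_root D (e_root D s) p⁻¹
      rcases pos_or D hr with h3 | h3
      · by_contra h4
        have h5 : D.ρ p⁻¹ (D.e s) ∈ D.N q := ⟨h3, h4⟩
        rw [← h] at h5
        apply h5.2
        rw [rho_rho_inv]
        exact e_pos D s
      · have h5 : -D.ρ p⁻¹ (D.e s) ∈ D.N p := by
          refine ⟨h3, ?_⟩
          rw [map_neg, rho_rho_inv]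
          exact neg_notMem D (e_pos D s)
        rw [h] at h5
        have h6 := h5.2
        rw [map_neg] at h6
        rcases pos_or D (rho_root D hr q) with h7 | h7
        · exact h7
        · exact absurd h7 h6
    exact h2.2 t
  have h2 : q = p := by
    have := mul_eq_one_iff_eq_inv.1 h1
    rw [this, inv_inv]
  exact h2.symm

/-- the stabiliser of a dominant functional with finitely many nonpositive positive roots is
finite -/
theorem finite_par (hT : Stmt_TIT) {z : D.V →ₗ[ℝ] ℝ} (hz : ∀ s, 0 ≤ z (D.e s))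
    (hfin : {φ | φ ∈ D.Ps ∧ z φ ≤ 0}.Finite) : Finite (D.par {s | z (D.e s) = 0}) := by
  have h1 : ∀ p : D.par {s | z (D.e s) = 0}, D.N p.1 ⊆ {φ | φ ∈ D.Ps ∧ z φ ≤ 0} := by
    intro p φ hφ
    refine ⟨hφ.1, ?_⟩
    have h2 := LinearMap.congr_fun ((hT D).2.2.2.2.2.2 z p.1 p.2) φ
    rw [LinearMap.comp_apply] at h2
    have h3 : -D.ρ p.1 φ ∈ D.Ps := by
      rcases pos_or D (rho_root D hφ.1.1 p.1) with h | h
      · exact absurd h hφ.2
      · exact h
    have h4 := dom_nonneg D hz h3.2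
    rw [map_neg, h2] at h4
    linarith
  have h2 : (𝒫 {φ | φ ∈ D.Ps ∧ z φ ≤ 0}).Finite := hfin.finite_subsets
  have : Finite (𝒫 {φ | φ ∈ D.Ps ∧ z φ ≤ 0} : Set (Set D.V)) := h2
  refine Finite.of_injective (fun p : D.par {s | z (D.e s) = 0} =>
    (⟨D.N p.1, h1 p⟩ : (𝒫 {φ | φ ∈ D.Ps ∧ z φ ≤ 0} : Set (Set D.V)))) ?_
  intro p q hpq
  apply Subtype.ext
  apply N_inj
  exact congrArg Subtype.val hpq

end H66

open H66 in
/-- **PCL** -/
theorem pcl_thm : Stmt_PIN → Stmt_RNK → Stmt_TIT → Stmt_PCL := by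
  intro hPIN hRNK hT D F
  constructor
  · -- parabolic closure
    let P : ℕ → Prop := fun n => ∃ (g : D.W) (J : Set D.S), F ≤ D.cp g J ∧ J.ncard = n
    have hP : ∃ n, P n := ⟨_, 1, Set.univ, by rw [cp_one, par_univ]; exact le_top, rfl⟩
    classical
    obtain ⟨g, J, hF, hn⟩ := Nat.find_spec hP
    refine ⟨g, J, hF, fun g' J' hF' => ?_⟩
    obtain ⟨g'', J'', h1⟩ := hPIN D g g' J J'
    have h2 : D.cp g'' J'' ≤ D.cp g J := by rw [← h1]; exact inf_le_left
    have h3 : D.cp g'' J'' ≤ D.cp g' J' := by rw [← h1]; exact inf_le_right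
    have h4 : F ≤ D.cp g'' J'' := by rw [← h1]; exact le_inf hF hF'
    have h5 : Nat.find hP ≤ J''.ncard := Nat.find_min' hP ⟨g'', J'', h4, rfl⟩
    obtain ⟨h6, h7, -⟩ := hRNK D g'' g J'' J h2
    rw [← h7 (by omega)]
    exact h3
  · intro hfin
    obtain ⟨h1, h2, h3, h4, h5, h6, h7⟩ := hT D
    have := Fintype.ofFinite F
    set y : D.V →ₗ[ℝ] ℝ := ∑ f : F, htL D ∘ₗ D.ρ f.1 with hy
    have hht : htL D ∈ D.Tc := h4 _ (fun s => (htL_pos D (e_pos D s)).le)
    have hht' : ∀ w, htL D ∘ₗ D.ρ w ∈ D.Tc := h3 _ hht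
    have hyT : y ∈ D.Tc := by
      have h0 : (0 : D.V →ₗ[ℝ] ℝ) ∈ D.Tc := h4 0 (fun s => by simp)
      rw [hy]
      exact Finset.sum_induction _ (fun y => y ∈ D.Tc) (fun a b ha hb => h1 a ha b hb) h0
        (fun f _ => hht' f.1)
    obtain ⟨g, hg, hst⟩ := stab hT hyT
    refine ⟨g, {s | y (D.ρ g (D.e s)) = 0}, ?_, ?_⟩
    · intro f hf
      rw [hst]
      refine LinearMap.ext fun v => ?_
      rw [LinearMap.comp_apply, hy, LinearMap.sum_apply, LinearMap.sum_apply]
      refine Fintype.sum_equiv (Equiv.mulRight (⟨f, hf⟩ : F)) _ _ (fun x => ?_)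
      rw [LinearMap.comp_apply, LinearMap.comp_apply, ← rho_mul]
      rfl
    · apply finite_par hT (z := y ∘ₗ D.ρ g) hg
      have hsub : {φ | φ ∈ D.Ps ∧ (y ∘ₗ D.ρ g) φ ≤ 0} ⊆
          ⋃ f : F, {φ | φ ∈ D.Ps ∧ (htL D ∘ₗ D.ρ (f.1 * g)) φ < 0} := by
        intro φ hφ
        rw [Set.mem_iUnion]
        by_contra hcon
        push Not at hcon
        have h8 : ∀ f : F, 0 < (htL D ∘ₗ D.ρ f.1) (D.ρ g φ) := by
          intro f
          rw [LinearMap.comp_apply, ← rho_mul]
          have h9 : ¬ (htL D ∘ₗ D.ρ (f.1 * g)) φ < 0 := fun h => hcon f ⟨hφ.1, h⟩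
          rw [LinearMap.comp_apply] at h9
          rcases pos_or D (rho_root D hφ.1.1 (f.1 * g)) with h10 | h10
          · exact htL_pos D h10
          · exfalso
            apply h9
            have := htL_pos D h10
            rw [map_neg] at this
            linarith
        have h11 : 0 < (y ∘ₗ D.ρ g) φ := by
          rw [LinearMap.comp_apply, hy, LinearMap.sum_apply]
          apply Finset.sum_pos (fun f _ => h8 f)
          exact ⟨⟨1, F.one_mem⟩, Finset.mem_univ _⟩
        exact absurd hφ.2 (not_le.2 h11)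
      exact (Set.finite_iUnion (fun f : F => hht' (f.1 * g))).subset hsub

end Pool.CS
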